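import Mathlib
import Pool.Agent.Y331.PH.Conn
import Pool.Agent.Y331.PH.Metric

/-!
# A holomorphic partially hyperbolic diffeomorphism whose center distribution is not real analytic

The manifold has complex dimension fifteen. Let `μ₀ > 2.2`, `μ₁ ∈ (0.55, 0.6)`, `μ₂ ∈ (-0.81, -0.8)`
be the roots of `X³ - 2X² - X + 1`, let `L ⊂ ℂ³` be the lattice of the vectors `(a(μᵢ))ᵢ`, where `a`
runs over the polynomials with Gaussian integer coefficients, and let `Λ₁ ⊂ ℂ³ˣ³` be the lattice of
the matrices `(c(μᵢ, μⱼ))ᵢⱼ`, where `c` runs over the polynomials in two variables with such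
coefficients. The group of the maps `(x, s, y) ↦ (εx + ℓ, ε2ⁿs, y - εxℓᴴ + k)` with `ε = ±1`, `ℓ ∈ L`,
`n ∈ ℤ`, `k ∈ Λ₁` acts on the set of the `(x, s, y) ∈ ℂ³ × ℂ* × ℂ³ˣ³` with `x ∉ L`. With
`v = s⁻³x` and `u = s²` the quotient by the sign is an open set of the space of the `(v, u, y)`, and
adding the points with `u = 0`, `v ≠ 0`, modulo `v ↦ 8v`, gives a compact complex manifold `M₁`:
the product of the torus `ℂ³ / L` and of an elliptic curve is modified by replacing the elliptic
curve over `0` (a fixed point of the sign) by a Hopf manifold `(ℂ³ ∖ 0) / ⟨8⟩`.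

The form `θ = dy + dx xᴴ` is invariant under the group. In the coordinates `(v, u, y)` it reads
`θ = dy + |u|³ (dv + (3/2) v du / u) vᴴ`, so it extends continuously to `u = 0`, but not real
analytically. The map `(v, u, y) ↦ (μ · v, u, μ y μ)`, where `μ` is the diagonal matrix, together with
the hyperbolic automorphism of the torus `ℂ² / Λ₂` given by `3 ± 2√2`, is a partially hyperbolic
biholomorphism of `M₁ × ℂ² / Λ₂`. Its unstable distribution is spanned by `∂ / ∂y₀₀` and by the
unstable direction of the second torus, its stable distribution is the stable direction of the second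
torus, and the center distribution is given by `θ₀₀ = 0` in the tangent space of `M₁`. It is
continuous, but not real analytic at the points of the hypersurface `u = 0` with `v₀ ≠ 0`.
-/

set_option autoImplicit false

open scoped Manifold ContDiff Topology
open Set

namespace Pool.Agent.Results.MP_6194a9_an.NonanalyticCenter

/-- A complex manifold modelled on the complex vector space `E`: the coordinate changes between its
charts, with values in `E`, are holomorphic. -/
structure ComplexManifold (E : Type) [NormedAddCommGroup E] [NormedSpace ℂ E] where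
  /-- the points -/
  pt : Type
  /-- the topology -/
  top : TopologicalSpace pt
  /-- the charts -/
  charts : ChartedSpace E pt
  /-- the coordinate changes are holomorphic -/
  holo : IsManifold 𝓘(ℂ, E) ω pt

namespace ComplexManifold

variable {E : Type} [NormedAddCommGroup E] [NormedSpace ℂ E] (M : ComplexManifold E)

instance : TopologicalSpace M.pt := M.top

instance : ChartedSpace E M.pt := M.charts

instance : IsManifold 𝓘(ℂ, E) ω M.pt := M.holo

/-- The real analytic manifold underlying a complex manifold: the charts are the same, with `E`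
regarded as a real vector space. -/
instance realAnalytic : IsManifold 𝓘(ℝ, E) ω M.pt := Y331.PH.isManifold_real M.pt

instance : IsManifold 𝓘(ℝ, E) ∞ M.pt := IsManifold.of_le (n := ω) le_top

instance : IsManifold 𝓘(ℝ, E) 1 M.pt := IsManifold.of_le (n := ω) le_top

/-- A biholomorphism of `M`. -/
abbrev Biholomorphism : Type := Diffeomorph 𝓘(ℂ, E) 𝓘(ℂ, E) M.pt M.pt ω

/-- The derivative of `f` at `x`, as a real linear map. As everywhere in Mathlib, the tangent space
at a point is the model space `E`, through the preferred chart at the point. -/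
noncomputable def D (f : M.pt → M.pt) (x : M.pt) : E →ₗ[ℝ] E :=
  (mfderiv 𝓘(ℝ, E) 𝓘(ℝ, E) f x).toLinearMap

/-- The tangent vector of the vector field `V` at `x`, as a point of the tangent bundle of the
underlying real manifold. -/
def vec (V : M.pt → E) (x : M.pt) : TangentBundle 𝓘(ℝ, E) M.pt := ⟨x, V x⟩

/-- A field of real subspaces of the tangent spaces is a continuous distribution: near every point
it has a basis of continuous vector fields. -/
def IsContinuousDistribution (A : M.pt → Submodule ℝ E) : Prop :=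
  ∀ x₀ : M.pt, ∃ U : Set M.pt, IsOpen U ∧ x₀ ∈ U ∧ ∃ (k : ℕ) (V : Fin k → M.pt → E),
    (∀ i, ContinuousOn (M.vec (V i)) U) ∧
      ∀ x ∈ U, LinearIndependent ℝ (fun i => V i x) ∧ A x = Submodule.span ℝ (range fun i => V i x)

/-- A field of real subspaces of the tangent spaces is real analytic: near every point it is
spanned by real analytic vector fields. -/
def IsAnalyticDistribution (A : M.pt → Submodule ℝ E) : Prop :=
  ∀ x₀ : M.pt, ∃ U : Set M.pt, IsOpen U ∧ x₀ ∈ U ∧ ∃ (k : ℕ) (V : Fin k → M.pt → E),
    (∀ i, ContMDiffOn 𝓘(ℝ, E) 𝓘(ℝ, E).tangent ω (M.vec (V i)) U) ∧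
      ∀ x ∈ U, A x = Submodule.span ℝ (range fun i => V i x)

/-- A Riemannian metric on the underlying real manifold: a scalar product on every tangent space,
such that the squared length is a continuous function on the tangent bundle. -/
structure Metric where
  /-- the scalar product -/
  inner : M.pt → E →ₗ[ℝ] E →ₗ[ℝ] ℝ
  symm : ∀ x v w, inner x v w = inner x w v
  pos : ∀ x v, v ≠ 0 → 0 < inner x v v
  continuous : Continuous fun v : TangentBundle 𝓘(ℝ, E) M.pt => inner v.1 v.2 v.2

/-- The Riemannian metric is smooth. -/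
def Metric.IsSmooth {M : ComplexManifold E} (g : M.Metric) : Prop :=
  ContMDiff 𝓘(ℝ, E).tangent 𝓘(ℝ, ℝ) ∞ fun v : TangentBundle 𝓘(ℝ, E) M.pt => g.inner v.1 v.2 v.2

/-- The length of the tangent vector `v` at `x`. -/
noncomputable def Metric.len {M : ComplexManifold E} (g : M.Metric) (x : M.pt) (v : E) : ℝ :=
  √(g.inner x v v)

/-- `TM = Es ⊕ Ec ⊕ Eu`, and the three subspaces are nonzero at every point. -/
def IsSplitting (Es Ec Eu : M.pt → Submodule ℝ E) : Prop :=
  ∀ x, (Es x ≠ ⊥ ∧ Ec x ≠ ⊥ ∧ Eu x ≠ ⊥) ∧ ∀ v, ∃! w : E × E × E,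
    w.1 ∈ Es x ∧ w.2.1 ∈ Ec x ∧ w.2.2 ∈ Eu x ∧ w.1 + w.2.1 + w.2.2 = v

/-- The distribution `A` is invariant under the derivative of `f`. -/
def IsInvariant (f : M.pt → M.pt) (A : M.pt → Submodule ℝ E) : Prop :=
  ∀ x, (A x).map (M.D f x) = A (f x)

/-- For some `N ≥ 1` and all unit vectors `vs ∈ Es`, `vc ∈ Ec`, `vu ∈ Eu` at the same point,
`‖Df^N vs‖ < min (1, ‖Df^N vc‖)` and `max (1, ‖Df^N vc‖) < ‖Df^N vu‖`. -/
def IsDominated (g : M.Metric) (f : M.pt → M.pt) (Es Ec Eu : M.pt → Submodule ℝ E) : Prop :=
  ∃ N : ℕ, 1 ≤ N ∧ ∀ x, ∀ vs ∈ Es x, ∀ vc ∈ Ec x, ∀ vu ∈ Eu x,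
    g.len x vs = 1 → g.len x vc = 1 → g.len x vu = 1 →
      g.len (f^[N] x) (M.D f^[N] x vs) < min 1 (g.len (f^[N] x) (M.D f^[N] x vc)) ∧
      max 1 (g.len (f^[N] x) (M.D f^[N] x vc)) < g.len (f^[N] x) (M.D f^[N] x vu)

/-- `TM = Es ⊕ Ec ⊕ Eu` is a partially hyperbolic splitting of `f` with respect to the Riemannian
metric `g`: the three distributions are nonzero, continuous, invariant and dominated. -/
structure IsPartiallyHyperbolic (g : M.Metric) (f : M.pt → M.pt)
    (Es Ec Eu : M.pt → Submodule ℝ E) : Prop where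
  splitting : M.IsSplitting Es Ec Eu
  continuous : M.IsContinuousDistribution Es ∧ M.IsContinuousDistribution Ec ∧
    M.IsContinuousDistribution Eu
  invariant : M.IsInvariant f Es ∧ M.IsInvariant f Ec ∧ M.IsInvariant f Eu
  dominated : M.IsDominated g f Es Ec Eu

end ComplexManifold

/-- The manifold of the example. -/
noncomputable def example₀ : ComplexManifold Y331.PH.EE :=
  ⟨Y331.PH.SS.Pt, inferInstance, inferInstance, inferInstance⟩

open Y331.PH

/-- the metric as a metric of the quotient. -/
noncomputable def toMet (g : example₀.Metric) : SS.Met where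
  sq q v := g.inner q v v
  smul q r v := by
    have h : ((r : ℂ) • v : EE) = (@HSMul.hSMul ℝ EE EE
      (@instHSMul ℝ EE (NormedSpace.complexToReal (E := EE)).toModule.toSMul) r v) :=
      Complex.coe_smul r v
    have h2 : g.inner q ((r : ℂ) • v) ((r : ℂ) • v) = r ^ 2 * g.inner q v v := by
      rw [h, map_smul, map_smul, LinearMap.smul_apply]
      simp only [smul_eq_mul]
      ring
    exact h2
  pos q v hv := g.pos q v hv
  cont := g.continuous

theorem partiallyHyperbolic (g : example₀.Metric) : example₀.IsPartiallyHyperbolic g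
    (Et.map FF nor_F) (SS.fld (Vert Js)) (SS.fld (Hor Jh)) (SS.fld (Vert Ju)) where
  splitting x := by
    have h : ∀ A : EE → Submodule ℂ EE, (∀ b, A b ≠ ⊥) → SS.fld A x ≠ ⊥ := by
      intro A hA
      obtain ⟨w, hw, hw0⟩ := (Submodule.ne_bot_iff _).1 (hA (chartAt EE x x))
      exact (Submodule.ne_bot_iff _).2 ⟨w, hw, hw0⟩
    exact ⟨⟨h _ (ne_bot_Vert (i := Sum.inr 1) (by simp [Js])), h _ ne_bot_Hor,
      h _ (ne_bot_Vert (i := Sum.inr 0) (by simp [Ju]))⟩, fun v => splitting (chartAt EE x x) v⟩
  continuous := ⟨continuous_Vert Js, continuous_Hor Jh, continuous_Vert Ju⟩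
  invariant := by
    refine ⟨fun x => ?_, fun x => ?_, fun x => ?_⟩
    · exact Et.map_fld FF GG nor_F FG (inv_Vert Js)
        (fun b _ w => mem_Vert_Fm aut_mu.hc mu_ne cc_ne Js b w) x
    · exact Et.map_fld FF GG nor_F FG (inv_Hor Jh)
        (fun b _ w => mem_Hor_Fm aut_mu.hc cc_ne Jh b w) x
    · exact Et.map_fld FF GG nor_F FG (inv_Vert Ju)
        (fun b _ w => mem_Vert_Fm aut_mu.hc mu_ne cc_ne Ju b w) x
  dominated := by
    obtain ⟨N, hN, h⟩ := dominated (toMet g)
    exact ⟨N, hN, fun x vs hs vc hc vu hu h1 h2 h3 => h x vs vc vu hs hc hu h1 h2 h3⟩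

theorem exists_smooth {E : Type} [NormedAddCommGroup E] [NormedSpace ℂ E] [FiniteDimensional ℂ E]
    (M : ComplexManifold E) [CompactSpace M.pt] [T2Space M.pt] : ∃ g : M.Metric, g.IsSmooth := by
  have : FiniteDimensional ℝ E := FiniteDimensional.complexToReal E
  obtain ⟨g⟩ := exists_metric (E := E) M.pt
  have h := contMDiff_sq M.pt g
  let ib : M.pt → E →ₗ[ℝ] E →ₗ[ℝ] ℝ := fun x =>
    (ContinuousLinearMap.coeLM ℝ).comp (show E →L[ℝ] E →L[ℝ] ℝ from g.inner x).toLinearMap
  exact ⟨⟨ib, fun x v w => g.symm x v w, fun x v hv => g.pos x v hv, h.continuous⟩, h⟩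

/-- **A holomorphic partially hyperbolic diffeomorphism whose center distribution is not real
analytic.** There are a compact connected complex manifold `M`, of dimension fifteen, a biholomorphism
`f` of `M` and a splitting `TM = Es ⊕ Ec ⊕ Eu` that is a partially hyperbolic splitting of `f` for
every Riemannian metric on `M`, such that `Ec` is not real analytic. -/
theorem result : ∃ (E : Type) (_ : NormedAddCommGroup E) (_ : NormedSpace ℂ E)
    (M : ComplexManifold E), Module.finrank ℂ E = 15 ∧ CompactSpace M.pt ∧ T2Space M.pt ∧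
      ConnectedSpace M.pt ∧ SecondCountableTopology M.pt ∧ (∃ g : M.Metric, g.IsSmooth) ∧
      ∃ (f : M.Biholomorphism) (Es Ec Eu : M.pt → Submodule ℝ E),
        (∀ g : M.Metric, M.IsPartiallyHyperbolic g f Es Ec Eu) ∧
          ¬ M.IsAnalyticDistribution Ec := by
  have hc : CompactSpace example₀.pt := compactSpace_SS
  have ht : T2Space example₀.pt := (inferInstance : T2Space SS.Pt)
  refine ⟨EE, inferInstance, inferInstance, example₀, ?_, hc, ht, connectedSpace_SS, ?_,
    exists_smooth example₀, Et.diffeo FF GG nor_F nor_G GF FG,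
    SS.fld (Vert Js), SS.fld (Hor Jh), SS.fld (Vert Ju), partiallyHyperbolic, not_analytic dat⟩
  · simp [Module.finrank_prod]
  · exact ChartedSpace.secondCountable_of_sigmaCompact EE example₀.pt

end Pool.Agent.Results.MP_6194a9_an.NonanalyticCenter
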